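import Pool.Agent.N95.GP.Dom

/-!
The field of the functions which are algebraic over the values of all multi-valued maps to generic
complete intersections (compare `Pool/Agent/N111/GI/Cor.lean`).
-/

set_option autoImplicit false
set_option linter.overlappingInstances false
set_option linter.unusedSectionVars false
set_option maxHeartbeats 1000000

open FF IntermediateField LinearAlgebra.Projectivization

namespace Pool.Agent.N95.GP

open Pool.Agent.TH466.QG Pool.Agent.N111.FT Pool.Agent.N111.GG Pool.Agent.N111.GI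
open Pool.Agent.W602.GT (val coords IsForm VarPts)

section

variable (k K L : Type) [Field k] [Field K] [Algebra k K] [Field L] [Algebra K L] (r R : ℕ)

/-- the functions which are algebraic over the values of all multi-valued maps to generic complete
intersections -/
noncomputable def vcore : IntermediateField K L :=
  (aclo K (⋃ C : MVMap k K L r R, C.values (AlgebraicClosure L))).comap
    (IsScalarTower.toAlgHom K L (AlgebraicClosure L))

variable {k K L r R}

theorem mem_vcore {z : L} : z ∈ vcore k K L r R ↔ algebraMap L (AlgebraicClosure L) z ∈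
    aclo K (⋃ C : MVMap k K L r R, C.values (AlgebraicClosure L)) := Iff.rfl

theorem vcore_closed {x : L} (h : IsAlgebraic (vcore k K L r R) x) : x ∈ vcore k K L r R := by
  rw [mem_vcore]
  apply aclo_closed
  let f : vcore k K L r R →+* aclo K (⋃ C : MVMap k K L r R, C.values (AlgebraicClosure L)) :=
    { toFun := fun y => ⟨algebraMap L (AlgebraicClosure L) y, y.2⟩
      map_one' := Subtype.ext (map_one _)
      map_mul' := fun a b => Subtype.ext (map_mul _ _ _)
      map_zero' := Subtype.ext (map_zero _)
      map_add' := fun a b => Subtype.ext (map_add _ _ _) }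
  exact h.ringHom_of_comp_eq f (algebraMap L (AlgebraicClosure L)) f.injective rfl

/-- the values are algebraic over the core -/
theorem alg_vcore (C : MVMap k K L r R) (i j : Fin (C.X.n + 1)) (hj : C.x j ≠ 0) :
    IsAlgebraic (vcore k K L r R) (C.x i / C.x j) := by
  classical
  set z' := C.x i / C.x j with hz'
  let Ω := AlgebraicClosure L
  have hint : IsIntegral L z' := Algebra.IsIntegral.isIntegral _
  set p := minpoly L z' with hp
  have hpm : (p.map (algebraMap L Ω)).Monic := (minpoly.monic hint).map _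
  have h1 : p.map (algebraMap L Ω) ∈
      Polynomial.lifts (algebraMap (aclo K (⋃ C : MVMap k K L r R, C.values Ω)) Ω) := by
    refine (IsAlgClosed.splits (p.map (algebraMap L Ω))).mem_lift_of_roots_mem_range hpm _ ?_
    intro a ha
    have h2 : a ∈ (minpoly L z').rootSet Ω := by
      rw [Polynomial.mem_rootSet]
      refine ⟨minpoly.ne_zero hint, ?_⟩
      have h3 := (Polynomial.mem_roots'.1 ha).2
      rw [Polynomial.IsRoot.def, Polynomial.eval_map] at h3
      rw [Polynomial.aeval_def]
      exact h3
    rw [← Algebra.IsAlgebraic.range_eval_eq_rootSet_minpoly (F := L) (K := C.L') Ω z'] at h2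
    obtain ⟨ψ, rfl⟩ := h2
    exact ⟨⟨ψ z', subset_aclo _ (Set.mem_iUnion.2 ⟨C, ψ, i, j, hj, rfl⟩)⟩, rfl⟩
  have h2 : p ∈ Polynomial.lifts (algebraMap (vcore k K L r R) L) := by
    rw [Polynomial.lifts_iff_coeff_lifts] at h1 ⊢
    intro i
    obtain ⟨c, hc⟩ := h1 i
    rw [Polynomial.coeff_map] at hc
    refine ⟨⟨p.coeff i, ?_⟩, rfl⟩
    rw [mem_vcore]
    change algebraMap L Ω (p.coeff i) ∈ _
    rw [← hc]
    exact c.2
  obtain ⟨q, hq⟩ := (Polynomial.mem_lifts _).1 h2
  refine ⟨q, ?_, ?_⟩
  · rintro rfl
    rw [Polynomial.map_zero] at hq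
    exact minpoly.ne_zero hint hq.symm
  · have h3 : Polynomial.aeval z' (q.map (algebraMap (vcore k K L r R) L)) = 0 := by
      rw [hq]
      exact minpoly.aeval L z'
    rwa [Polynomial.aeval_map_algebraMap] at h3

end

section descend

variable {k K L : Type} [Field k] [Field K] [CharZero K] [Algebra k K] [Field L] [Algebra K L]
  {r R : ℕ}

/-- **The multi-valued maps descend** to the algebraically closed subfields over which the ratios
of the coordinates are algebraic. -/
theorem MVMap.descend (C : MVMap k K L r R) {L₀ : IntermediateField K L}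
    (hcl : ∀ z : L, IsAlgebraic L₀ z → z ∈ L₀)
    (halg : ∀ i j, C.x j ≠ 0 → IsAlgebraic L₀ (C.x i / C.x j)) :
    ∃ C₀ : MVMap k K L₀ r R, ∀ (Ω : Type) [Field Ω] [Algebra L Ω], C.values Ω ⊆ C₀.values Ω := by
  classical
  have hL : CharZero L := charZero_of_injective_algebraMap (algebraMap K L).injective
  have hL₀ : CharZero L₀ := charZero_of_injective_algebraMap (algebraMap K L₀).injective
  obtain ⟨c0, hc0'⟩ := Function.ne_iff.1 C.pt.ne
  have hc0 : C.x c0 ≠ 0 := hc0'
  let K₁ : IntermediateField L₀ C.L' := adjoin L₀ (Set.range fun i => C.x i / C.x c0)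
  have hK₁ : FiniteDimensional L₀ K₁ := by
    refine IntermediateField.finiteDimensional_adjoin ?_
    rintro _ ⟨i, rfl⟩
    exact (halg i c0 hc0).isIntegral
  obtain ⟨θ, hθ⟩ := Field.exists_primitive_element L₀ K₁
  have hθi : IsIntegral L₀ θ := Algebra.IsIntegral.isIntegral θ
  have hθi' : IsIntegral L₀ (θ : C.L') := hθi.map K₁.val
  have hmin : minpoly L₀ (θ : C.L') = minpoly L₀ θ := by
    have := minpoly.algHom_eq (A := L₀) K₁.val K₁.val.injective θ
    exact this
  have hlift := minpoly_lift (k := K) hcl hθi'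
  have hdeg : Module.finrank L₀ K₁ ≤ r := by
    have h1 : Module.finrank L₀ K₁ = (minpoly L₀ θ).natDegree := by
      rw [← IntermediateField.adjoin.finrank hθi, hθ, IntermediateField.finrank_top']
    rw [h1, ← hmin, ← Polynomial.natDegree_map (algebraMap L₀ L), hlift]
    exact (minpoly.natDegree_le _).trans C.deg_le
  let x₀ : Fin (C.X.n + 1) → K₁ := fun i => ⟨C.x i / C.x c0, subset_adjoin _ _ ⟨i, rfl⟩⟩
  have hx₀ : ∀ i, (x₀ i : C.L') = C.x i / C.x c0 := fun i => rfl
  have hst : IsScalarTower K K₁ C.L' := IsScalarTower.of_algebraMap_eq fun c => rfl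
  have hev : ∀ (d : ℕ) (P : MvPolynomial (Fin (C.X.n + 1)) K), P.IsHomogeneous d →
      MvPolynomial.aeval C.x P = 0 → MvPolynomial.aeval x₀ P = 0 := by
    intro d P hP h
    apply (algebraMap K₁ C.L').injective
    rw [map_zero, ← MvPolynomial.aeval_algebraMap_apply]
    have h1 := aeval_div hP C.x (C.x c0)
    rw [h, mul_zero] at h1
    exact h1
  let C₀ : MVMap k K L₀ r R :=
    { X := C.X
      bound := C.bound
      bound' := C.bound'
      L' := K₁
      deg_le := hdeg
      x := x₀
      pt :=
        { ne := fun h => by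
            have h1 := congrArg (fun z : K₁ => (z : C.L')) (congrFun h c0)
            change C.x c0 / C.x c0 = 0 at h1
            rw [div_self hc0] at h1
            exact one_ne_zero h1
          mem_V := fun f hf => by
            obtain ⟨d, hd⟩ := C.X.V_form f hf
            exact hev d _ (hd.map _) (C.pt.mem_V f hf)
          mem_F := fun a => hev _ _ (C.X.F_form a) (C.pt.mem_F a) } }
  refine ⟨C₀, fun Ω _ _ => ?_⟩
  rintro z ⟨ψ, i, j, hj, rfl⟩
  refine ⟨(ψ.restrictScalars L₀).comp K₁.val, i, j, fun h => ?_, ?_⟩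
  · have h1 : C.x j / C.x c0 = 0 := congrArg (fun z : K₁ => (z : C.L')) h
    exact hj ((div_eq_zero_iff.1 h1).resolve_right hc0)
  · have h1 : C.x i / C.x j = (C.x i / C.x c0) / (C.x j / C.x c0) := by field_simp
    rw [h1]
    rfl

theorem vcore_joint (z : vcore k K L r R) :
    algebraMap (vcore k K L r R) (AlgebraicClosure L) z ∈
      aclo K (⋃ C : MVMap k K (vcore k K L r R) r R, C.values (AlgebraicClosure L)) := by
  refine aclo_mono ?_ (mem_vcore.1 z.2)
  intro v hv
  obtain ⟨C, hC⟩ := Set.mem_iUnion.1 hv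
  obtain ⟨C₀, h₀⟩ := C.descend (L₀ := vcore k K L r R) (fun z hz => vcore_closed hz)
    (fun i j hj => alg_vcore C i j hj)
  exact Set.mem_iUnion.2 ⟨C₀, h₀ _ hC⟩

end descend

section main

variable {k K L : Type} [Field k] [Field K] [IsAlgClosed K] [CharZero K] [Algebra k K] [Field L]
  [Algebra K L] {r R ρ : ℕ}

/-- all functions are algebraic over the values of a generically finite multi-valued map -/
theorem joint_val (C : MVMap k K L r R) (halg : Algebra.IsAlgebraic (coords K C.x) C.L') (Ω : Type)
    [Field Ω] [Algebra K Ω] [Algebra L Ω] [IsScalarTower K L Ω] [IsAlgClosed Ω] (z : L) :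
    algebraMap L Ω z ∈ aclo K (⋃ C : MVMap k K L r R, C.values Ω) := by
  let ψ : C.L' →ₐ[L] Ω := IsAlgClosed.lift
  have h1 : algebraMap L C.L' z ∈ aclo K {z | ∃ i j, C.x j ≠ 0 ∧ z = C.x i / C.x j} :=
    mem_aclo.2 (halg.isAlgebraic _)
  have h2 := (map_mem_aclo_iff (ψ.restrictScalars K) _ _).2 h1
  have h3 : (ψ.restrictScalars K) (algebraMap L C.L' z) = algebraMap L Ω z := ψ.commutes z
  rw [h3] at h2
  refine aclo_mono ?_ h2
  rintro _ ⟨_, ⟨i, j, hj, rfl⟩, rfl⟩
  exact Set.mem_iUnion.2 ⟨C, ψ, i, j, hj, rfl⟩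

/-- **The base of the fibration.** -/
theorem vcore_bound {M : ℕ} {u : Fin (M + 1) → vcore k K L r (ρ * r)} (hu : u ≠ 0)
    (hgen : coords K u = ⊤) : CoverBound K ρ u :=
  joint_bound (k := k) (r := r) (AlgebraicClosure L) hu hgen vcore_joint

end main

end Pool.Agent.N95.GP
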