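import Pool.Agent.N95.GP.Ult
import Pool.Agent.N111.GI.Img

/-!
Heights of the points of bounded degree of generic complete intersections over function fields of
one variable: a linear bound in the genus, uniform in the function field.
-/

set_option autoImplicit false
set_option linter.unusedSectionVars false
set_option linter.overlappingInstances false

open MvPolynomial FF Pool.Agent.W603.LV Pool.Agent.W603.PV
open Pool.Agent.W602.GT Pool.Agent.TH145.MG Pool.Agent.TH145.GC
open Pool.Agent.Y735.R (hgt_le_of_ge)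
open Pool.Agent.N111.GI

namespace Pool.Agent.N95.GP

section ratio

variable {k K : Type} [Field k] [IsAlgClosed k] [CharZero k] [Field K] [Algebra k K] [IsFF k K]

/-- The divisor of a regular form. -/
theorem ord_reg {y : Fin 1 → K} {E : Fin 1 → Derivation k K K}
    (hE : ∀ i j, E i (y j) = if i = j then 1 else 0) {T : K} (hT : T ≠ 0) (P : Place k K)
    (h : RegAt P (trForm y T)) : vo P (E 0) ≤ P.ord T := by
  have hE0 : E 0 ≠ 0 := by
    intro h0
    have h1 := hE 0 0
    rw [h0, if_pos rfl] at h1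
    exact zero_ne_one h1
  have hπ := ord_unif P
  have h0 := der_pi_ne_zero hE0 P hπ
  have h1 := h (fun _ => (E 0 (unif P))⁻¹ • E 0) (fun _ f hf =>
    der_reg P hπ ((E 0 (unif P))⁻¹ • E 0) (by simp [h0]) hf)
  have h2 : trForm y T (fun _ => (E 0 (unif P))⁻¹ • E 0) = (E 0 (unif P))⁻¹ * T := by
    rw [trForm, Matrix.det_fin_one, Matrix.of_apply, Derivation.smul_apply, hE, if_pos rfl,
      smul_eq_mul, mul_one]
  rw [h2] at h1
  rcases h1 with h1 | h1
  · exact absurd h1 (mul_ne_zero (inv_ne_zero h0) hT)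
  · rw [P.ord_mul (inv_ne_zero h0) hT, P.ord_inv] at h1
    have h3 : vo P (E 0) = P.ord (E 0 (unif P)) := rfl
    omega

/-- The height of the ratio of two regular forms. -/
theorem hgt_ratio {y : Fin 1 → K} {E : Fin 1 → Derivation k K K}
    (hE : ∀ i j, E i (y j) = if i = j then 1 else 0) {T c : K} (hc : c ≠ 0)
    (h1 : ∀ P, RegAt P (trForm (k := k) y T)) (h2 : ∀ P, RegAt P (trForm (k := k) y c)) :
    hgt k (T / c) ≤ canDeg k K := by
  classical
  have hE0 : E 0 ≠ 0 := by
    intro h0
    have h1 := hE 0 0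
    rw [h0, if_pos rfl] at h1
    exact zero_ne_one h1
  have hc1 : ∀ P, vo P (E 0) ≤ P.ord c := fun P => ord_reg hE hc P (h2 P)
  have hfin : {v : Place k K | v.ord c - vo v (E 0) ≠ 0}.Finite := by
    refine ((finite_support (k := k) c).union (vo_finite hE0)).subset fun P hP => ?_
    by_contra hcon
    simp only [Set.mem_union, not_or] at hcon
    have h3 : P.ord c = 0 := by
      by_contra h
      exact hcon.1 h
    have h4 : vo P (E 0) = 0 := by
      by_contra h
      exact hcon.2 h
    apply hP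
    rw [h3, h4, sub_zero]
  have h3 := hgt_le_of_ge (k := k) (f := T / c) (b := fun v => v.ord c - vo v (E 0))
    (fun v => sub_nonneg.2 (hc1 v)) hfin fun v => by
      by_cases hT : T = 0
      · left
        rw [hT, zero_div]
      · right
        rw [v.ord_div hT hc]
        have := ord_reg hE hT v (h1 v)
        omega
  refine h3.trans (le_of_eq ?_)
  have h4 : (fun v : Place k K => v.ord c - vo v (E 0)) = fun v => v.ord c + -vo v (E 0) := by
    funext v
    ring
  have h5 : (Function.support fun v : Place k K => -vo v (E 0)).Finite := by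
    refine (vo_finite hE0).subset fun P hP => ?_
    intro h
    apply hP
    change -vo P (E 0) = 0
    rw [h, neg_zero]
  rw [h4, finsum_add_distrib (finite_support (k := k) c) h5, sum_ord, zero_add, canDeg_eq hE0,
    finsum_neg_distrib]

end ratio

section main

variable {k0 k : Type} [Field k0] [Field k] [Algebra k0 k] [IsAlgClosed k] [CharZero k]
  [IsAlgClosed k0] {n m R : ℕ} {A : Type} [Fintype A] {d : A → ℕ}

/-- The height of a nonconstant point of bounded degree. -/
theorem exists_dat (V : Set (MvPolynomial (Fin (n + 1)) k0))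
    (hVh : ∀ f ∈ V, ∃ e, f.IsHomogeneous e) (hV : DimLE k0 V m)
    (hd : 2 * m + R ≤ ∑ a, (d a + 1))
    (F : A → MvPolynomial (Fin (n + 1)) k) (hF : ∀ a, (F a).IsHomogeneous (d a))
    (I0 : A → Fin (n + 1) →₀ ℕ) (h0 : ∀ a, (F a).coeff (I0 a) ≠ 0)
    (hind : AlgebraicIndependent k0 fun p : Rt d I0 =>
      (F p.1).coeff p.2.1 / (F p.1).coeff (I0 p.1))
    {K L : Type} [Field K] [Field L] [Algebra k K] [Algebra k L] [Algebra K L]
    [IsScalarTower k K L] [FiniteDimensional K L] [IsFF k K] [IsFF k L]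
    (hr : Module.finrank K L ≤ R) {x : Fin (n + 1) → L} {l0 : Fin (n + 1)} (hx : x l0 = 1)
    (hgen : IntermediateField.adjoin K (Set.range x) = ⊤)
    (htr : ∃ j, Transcendental k (x j))
    (hxV : ∀ f ∈ V, aeval x (map (algebraMap k0 k) f) = 0) (hxF : ∀ a, aeval x (F a) = 0) :
    ∃ D : Dat k n (Module.finrank K L) l0, D.h = max (canDeg k K) 0 ∧
      (∀ f ∈ V, aeval D.x (map (algebraMap k0 k) f) = 0) ∧ (∀ a, aeval D.x (F a) = 0) ∧
      ∑ j, hgt k (D.x j) = ∑ j, hgt k (x j) := by
  classical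
  have hessK : Algebra.EssFiniteType k K := IsFF.ess
  have hessL : Algebra.EssFiniteType k L := IsFF.ess
  have hnK : Algebra.trdeg k K = (1 : ℕ) := by
    rw [IsFF.trdeg (k := k) (K := K), Nat.cast_one]
  have hnL : Algebra.trdeg k L = (1 : ℕ) := by
    rw [IsFF.trdeg (k := k) (K := L), Nat.cast_one]
  obtain ⟨j1, hj1⟩ := htr
  have hx0 : x l0 ≠ 0 := by rw [hx]; exact one_ne_zero
  have hmem : x j1 ∈ coords k x := by
    unfold coords
    refine IntermediateField.subset_adjoin _ _ ⟨j1, l0, hx0, ?_⟩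
    rw [hx, div_one]
  have halg : Algebra.IsAlgebraic (coords k x) L := by
    have h1 := IsFF.isAlgebraic hj1
    have h2 : IntermediateField.adjoin k {x j1} ≤ coords k x := by
      rw [IntermediateField.adjoin_le_iff]
      rintro _ rfl
      exact hmem
    exact Pool.Agent.W602.GT.alg_mono h2 h1
  obtain ⟨s, hs⟩ : ∃ s, s = Module.finrank K L := ⟨_, rfl⟩
  obtain ⟨ω, hω, ⟨D0, hD0⟩, hreg⟩ := twisted (ex := s) (w := 1) V hVh hV Finset.univ one_pos (by
    rw [Finset.card_univ]
    have h1 : ∑ a, (d a + 1) = ∑ a, d a + Fintype.card A := by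
      rw [Finset.sum_add_distrib, Finset.sum_const, smul_eq_mul, mul_one, Finset.card_univ]
    omega) F hF I0 h0 hind hnL (x := x) (c0 := l0) hx0 halg hxV
    (fun a _ => hxF a) (fun b hb => absurd (Finset.mem_univ b) hb)
  simp only [hx, div_one] at hreg
  obtain ⟨y, E, hy, hE⟩ := Pool.Agent.Y172.exists_crd hnK
  choose E' hE' using fun i => Pool.Agent.Y172.exists_lift (L := L) hnK (E i)
  have hyL : IsTranscendenceBasis k (fun j => algebraMap K L (y j)) := hy.algebraMap_comp
  have hEL := Pool.Agent.Y172.lift_dual hE hE'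
  have hωE : ω E' ≠ 0 := by
    intro h0
    apply hD0
    rw [Pool.Agent.Y172.pluri_coord hyL hEL hω D0, h0, mul_zero]
  obtain ⟨T, hT⟩ : ∃ T : (Fin s → Fin (n + 1)) → K, ∀ f, T f =
    Algebra.trace K L ((∏ i, x (f i)) * ω E') := ⟨_, fun _ => rfl⟩
  have hemp : IsEmpty (Fin (1 - 1)) := ⟨fun i => i.elim0⟩
  have hdiv : ∀ P : Place k K, Divisorial 1 P := fun P => by
    refine ⟨fun i => i.elim0, fun G hG => ?_⟩
    obtain ⟨c, rfl⟩ := MvPolynomial.C_surjective (Fin (1 - 1)) G
    have hc : c ≠ 0 := by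
      rintro rfl
      exact hG (map_zero _)
    rw [MvPolynomial.aeval_C]
    exact ⟨(map_ne_zero _).2 hc, P.ord_const hc⟩
  have hTr : ∀ f P, RegAt P (trForm (k := k) y (T f)) := by
    intro f P
    have h1 := trForm_regAt (n := 1) hnK hy hE hE' (fun D => (∏ j, x (f j)) * ω D) (by
      intro A D
      change (∏ j, x (f j)) * ω (fun i => ∑ j, A i j • D j) = _
      rw [hω A D]
      ring) P (hdiv P) fun Q e hQ => (hreg f Q (Pool.Agent.Y172.divisorial_up hQ (hdiv P))).2
        (by rintro ⟨b, hb, -⟩; exact hb (Finset.mem_univ b))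
    rw [hT]
    exact h1
  obtain ⟨c, hc, hct⟩ : ∃ c : K, c ≠ 0 ∧ ∀ f, hgt k (T f / c) ≤ max (canDeg k K) 0 := by
    by_cases hall : ∀ f, T f = 0
    · refine ⟨1, one_ne_zero, fun f => ?_⟩
      rw [hall f, zero_div, hgt_zero]
      exact le_max_right _ _
    · push Not at hall
      obtain ⟨f0, hf0⟩ := hall
      exact ⟨T f0, hf0, fun f => (hgt_ratio hE hf0 (hTr f) (hTr f0)).trans (le_max_left _ _)⟩
  subst hs
  exact ⟨{ K := K, L := L, fr := rfl, x := x, xl := hx, gen := hgen, θ := ω E', θ0 := hωE, c := c,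
           c0 := hc, h := max (canDeg k K) 0, h0 := le_max_right _ _,
           tr := fun f => by rw [← hT]; exact hct f }, rfl, hxV, hxF, rfl⟩

/-- **The heights of the points of bounded degree of generic complete intersections.** -/
theorem curve_bound (V : Set (MvPolynomial (Fin (n + 1)) k0))
    (hVh : ∀ f ∈ V, ∃ e, f.IsHomogeneous e) (hV : DimLE k0 V m)
    (hd : 2 * m + R ≤ ∑ a, (d a + 1)) (hd2 : 2 * m + 2 ≤ ∑ a, (d a + 1))
    (F : A → MvPolynomial (Fin (n + 1)) k) (hF : ∀ a, (F a).IsHomogeneous (d a))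
    (I0 : A → Fin (n + 1) →₀ ℕ) (h0 : ∀ a, (F a).coeff (I0 a) ≠ 0)
    (hind : AlgebraicIndependent k0 fun p : Rt d I0 =>
      (F p.1).coeff p.2.1 / (F p.1).coeff (I0 p.1)) :
    ∃ B : ℕ, ∀ (K L : Type) [Field K] [Field L] [Algebra k K] [Algebra k L] [Algebra K L]
      [IsScalarTower k K L] [FiniteDimensional K L] [IsFF k K] [IsFF k L],
      Module.finrank K L ≤ R → ∀ x : Fin (n + 1) → L, x ≠ 0 →
      (∀ f ∈ V, aeval x (map (algebraMap k0 k) f) = 0) → (∀ a, aeval x (F a) = 0) →
      pht k x ≤ B * max (canDeg k K) 0 := by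
  classical
  have hu := fun (s : Fin (R + 1)) (l0 : Fin (n + 1)) =>
    unif_bound (s := s.1) V F (noLine_ratio (k0 := k0) (E := k) hd2 V hV F hF I0 h0 hind l0)
  choose B hB using hu
  obtain ⟨B0, hB0⟩ : ∃ B0 : ℕ, B0 = ∑ s, ∑ l0, B s l0 := ⟨_, rfl⟩
  have hB0le : ∀ s l0, B s l0 ≤ B0 := by
    intro s l0
    rw [hB0]
    refine le_trans ?_ (Finset.single_le_sum (f := fun s => ∑ l0, B s l0)
      (fun _ _ => Nat.zero_le _) (Finset.mem_univ s))
    exact Finset.single_le_sum (f := fun l0 => B s l0) (fun _ _ => Nat.zero_le _)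
      (Finset.mem_univ l0)
  refine ⟨R * B0, fun K L _ _ _ _ _ _ _ _ _ hr x hx hxV hxF => ?_⟩
  obtain ⟨c0, hc0'⟩ := Function.ne_iff.1 hx
  have hc0 : x c0 ≠ 0 := hc0'
  obtain ⟨χ, hχ⟩ : ∃ χ : ℤ, χ = max (canDeg k K) 0 := ⟨_, rfl⟩
  have hχ0 : 0 ≤ χ := by rw [hχ]; exact le_max_right _ _
  rw [← hχ]
  refine (pht_le (k := k) x hc0).trans ?_
  let L1 := IntermediateField.adjoin K (Set.range fun j => x j / x c0)
  have hL1F : IsFF k L1 := isFF_of_finite (F := K)
  let x1 : Fin (n + 1) → L1 := fun j =>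
    ⟨x j / x c0, IntermediateField.subset_adjoin _ _ ⟨j, rfl⟩⟩
  have hst : IsScalarTower k L1 L := IsScalarTower.of_algebraMap_eq fun _ => rfl
  have hx1v : ∀ j, algebraMap L1 L (x1 j) = x j / x c0 := fun j => rfl
  have hx1 : x1 c0 = 1 := Subtype.ext (div_self hc0)
  have hev : ∀ (e : ℕ) (G : MvPolynomial (Fin (n + 1)) k), G.IsHomogeneous e →
      aeval x G = 0 → aeval x1 G = 0 := by
    intro e G hG h
    apply (algebraMap L1 L).injective
    rw [map_zero]
    have h1 : algebraMap L1 L (aeval x1 G) = aeval (fun j => x j / x c0) G := by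
      rw [← aeval_algebraMap_apply]
      rfl
    rw [h1, aeval_div hG, h, mul_zero]
  have hfr1 : Module.finrank K L1 ≤ R := by
    refine le_trans ?_ hr
    exact LinearMap.finrank_le_finrank_of_injective (f := L1.val.toLinearMap)
      (fun a b h => Subtype.ext h)
  have hfr2 : Module.finrank L1 L ≤ R := by
    have h2 := Module.finrank_mul_finrank K L1 L
    have h3 := Module.finrank_pos (R := K) (M := L1)
    nlinarith
  have hgen1 : IntermediateField.adjoin K (Set.range x1) = ⊤ := by
    apply IntermediateField.map_injective L1.val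
    rw [← AlgHom.fieldRange_eq_map, IntermediateField.fieldRange_val,
      IntermediateField.adjoin_map]
    congr 1
    rw [← Set.range_comp]
    rfl
  have hsum : ∑ j, hgt k (x1 j) ≤ B0 * χ := by
    by_cases htr : ∃ j, Transcendental k (x1 j)
    · obtain ⟨D, hDh, hDV, hDF, hDs⟩ := exists_dat V hVh hV hd F hF I0 h0 hind hfr1 hx1 hgen1 htr
        (fun f hf => by
          obtain ⟨e, he⟩ := hVh f hf
          exact hev e _ (he.map _) (hxV f hf))
        (fun a => hev _ _ (hF a) (hxF a))
      rw [← hDs]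
      have h1 := hB ⟨Module.finrank K L1, Nat.lt_succ_of_le hfr1⟩ c0 D hDV hDF
      rw [hDh, ← hχ] at h1
      refine h1.trans (mul_le_mul_of_nonneg_right ?_ hχ0)
      exact_mod_cast hB0le _ _
    · push Not at htr
      have h1 : ∀ j, hgt k (x1 j) = 0 := fun j => by
        have h2 := htr j
        rw [Transcendental, not_not] at h2
        exact hgt_algebraic h2
      rw [Finset.sum_congr rfl fun j _ => h1 j, Finset.sum_const_zero]
      exact mul_nonneg (by positivity) hχ0
  have h3 : ∑ j, hgt k (x j / x c0) = Module.finrank L1 L * ∑ j, hgt k (x1 j) := by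
    rw [Finset.mul_sum]
    refine Finset.sum_congr rfl fun j _ => ?_
    rw [← hx1v]
    exact hgt_algebraMap (k := k) (F := L1) (L := L) (x1 j)
  rw [h3]
  have h4 : (Module.finrank L1 L : ℤ) ≤ R := by exact_mod_cast hfr2
  have h5 : 0 ≤ ∑ j, hgt k (x1 j) := Finset.sum_nonneg fun j _ => hgt_nonneg _
  refine (mul_le_mul h4 hsum h5 (by positivity)).trans (le_of_eq ?_)
  push_cast
  ring

end main

end Pool.Agent.N95.GP
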