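import Pool.Agent.TH466.QG.Strong
import Pool.Agent.N111.GI.Str

/-!
Spreading out, with the degrees of the residue fields of several subfields.
-/

set_option autoImplicit false
set_option linter.unusedSectionVars false
set_option linter.overlappingInstances false

open FF IntermediateField

namespace Pool.Agent.N95.GP

open Pool.Agent.TH466.QG

/-- elements of a finite extension are polynomials in a generator -/
theorem exists_poly {L L' : Type} [Field L] [Field L'] [Algebra L L'] [FiniteDimensional L L']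
    {θ : L'} (hθ : L⟮θ⟯ = ⊤) (ϑ : L') : ∃ p : Polynomial L, Polynomial.aeval θ p = ϑ := by
  have hθi : IsIntegral L θ := Algebra.IsIntegral.isIntegral θ
  have h1 : ϑ ∈ (L⟮θ⟯).toSubalgebra := by
    rw [hθ]
    exact IntermediateField.mem_top
  rw [IntermediateField.adjoin_simple_toSubalgebra_of_isAlgebraic hθi.isAlgebraic] at h1
  rw [Algebra.adjoin_singleton_eq_range_aeval] at h1
  exact h1

/-- **Spreading out.** -/
theorem spread_deg {k L M' : Type} [Field k] [CharZero k] [Field L] [Field M'] [Algebra k L]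
    [Algebra k M'] [Algebra L M'] [IsScalarTower k L M'] [FiniteDimensional L M'] {σ : Type}
    {x : σ → L} (hx : IntermediateField.adjoin k (Set.range x) = ⊤) {Θ : Set M'}
    (hΘ : Θ.Finite) {J : Type} [Finite J] {L' : J → Type} [∀ j, Field (L' j)]
    [∀ j, Algebra L (L' j)] [∀ j, FiniteDimensional L (L' j)] (ψ : ∀ j, L' j →ₐ[L] M')
    {Θ' : ∀ j, Set (L' j)} (hΘ' : ∀ j, (Θ' j).Finite) :
    ∃ H : MvPolynomial σ k, MvPolynomial.aeval x H ≠ 0 ∧
      ∀ (E : Type) [Field E] [Algebra k E] (z : σ → E),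
        (∀ G : MvPolynomial σ k, MvPolynomial.aeval x G = 0 → MvPolynomial.aeval z G = 0) →
        MvPolynomial.aeval z H ≠ 0 →
        ∃ (K'' : Type) (_ : Field K'') (_ : Algebra k K'') (_ : Algebra E K'')
          (_ : IsScalarTower k E K'') (_ : FiniteDimensional E K''),
          Module.finrank E K'' ≤ Module.finrank L M' ∧ ∃ S : Sp k M' K'',
            (∀ i, S.T (algebraMap L M' (x i)) (algebraMap E K'' (z i))) ∧
            (∀ ϑ ∈ Θ, ∃ t, S.T ϑ t) ∧
            ∀ j, ∃ F : IntermediateField E K'', Module.finrank E F ≤ Module.finrank L (L' j) ∧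
              ∀ ϑ ∈ Θ' j, ∃ t : F, S.T (ψ j ϑ) (t : K'') := by
  classical
  have hcL : CharZero L := charZero_of_injective_algebraMap (algebraMap k L).injective
  choose θ hθ using fun j => Field.exists_primitive_element L (L' j)
  choose p hp using fun j => exists_poly (hθ j)
  have hfinS : (⋃ j, ((↑(minpoly L (θ j)).coeffs : Set L) ∪
      ⋃ ϑ ∈ Θ' j, (↑(p j ϑ).coeffs : Set L))).Finite := by
    refine Set.finite_iUnion fun j => ?_
    refine (Finset.finite_toSet _).union ((hΘ' j).biUnion fun ϑ _ => Finset.finite_toSet _)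
  obtain ⟨H1, hH1, hG⟩ := exists_den hx hfinS
  obtain ⟨H0, hH0, hsp⟩ := spread (K' := M') hx (Θ := (Θ ∪ Set.range fun j => ψ j (θ j)) ∪
    {(algebraMap L M' (MvPolynomial.aeval x H1))⁻¹})
    ((hΘ.union (Set.finite_range _)).union (Set.finite_singleton _))
  refine ⟨H0 * H1, by rw [map_mul]; exact mul_ne_zero hH0 hH1, fun E _ _ z hz hzH => ?_⟩
  rw [map_mul] at hzH
  have hz0 := left_ne_zero_of_mul hzH
  have hz1 := right_ne_zero_of_mul hzH
  obtain ⟨K'', i1, i2, i3, i4, i5, hrk, S, hSx, hSΘ⟩ := hsp E z hz hz0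
  refine ⟨K'', i1, i2, i3, i4, i5, hrk, S, hSx, fun ϑ hϑ => hSΘ _ (Or.inl (Or.inl hϑ)),
    fun j => ?_⟩
  have hpoly : ∀ P : MvPolynomial σ k, S.T (algebraMap L M' (MvPolynomial.aeval x P))
      (algebraMap E K'' (MvPolynomial.aeval z P)) := by
    intro P
    have h1 := Pool.Agent.N111.GI.sp_val S hSx P
    have e1 : MvPolynomial.aeval (fun i => algebraMap L M' (x i)) P =
        algebraMap L M' (MvPolynomial.aeval x P) := MvPolynomial.aeval_algebraMap_apply M' x P
    have e2 : MvPolynomial.aeval (fun i => algebraMap E K'' (z i)) P =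
        algebraMap E K'' (MvPolynomial.aeval z P) := MvPolynomial.aeval_algebraMap_apply K'' z P
    rw [e1, e2] at h1
    exact h1
  -- the coefficients
  have hco : ∀ a : L, (∃ G : MvPolynomial σ k, a * MvPolynomial.aeval x H1 =
      MvPolynomial.aeval x G) → ∃ b : E, S.T (algebraMap L M' a) (algebraMap E K'' b) := by
    rintro a ⟨G, hG⟩
    refine ⟨MvPolynomial.aeval z G * (MvPolynomial.aeval z H1)⁻¹, ?_⟩
    have h1 : algebraMap L M' (MvPolynomial.aeval x H1) ≠ 0 := (map_ne_zero _).2 hH1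
    have h2 := S.mul (hpoly G) (S.inv (hpoly H1) (hSΘ _ (Or.inr rfl)) h1)
    have h3 : algebraMap L M' a = algebraMap L M' (MvPolynomial.aeval x G) *
        (algebraMap L M' (MvPolynomial.aeval x H1))⁻¹ := by
      rw [← hG, map_mul]
      field_simp
    rw [h3, map_mul, map_inv₀]
    exact h2
  have hcm : ∀ i, ∃ b : E, S.T (algebraMap L M' ((minpoly L (θ j)).coeff i))
      (algebraMap E K'' b) := by
    intro i
    by_cases h0 : (minpoly L (θ j)).coeff i = 0
    · exact ⟨0, by rw [h0, map_zero, map_zero]; exact S.zero⟩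
    · exact hco _ (hG _ (Set.mem_iUnion.2 ⟨j, Or.inl (Polynomial.coeff_mem_coeffs h0)⟩))
  have hcp : ∀ ϑ ∈ Θ' j, ∀ i, ∃ b : E, S.T (algebraMap L M' ((p j ϑ).coeff i))
      (algebraMap E K'' b) := by
    intro ϑ hϑ i
    by_cases h0 : (p j ϑ).coeff i = 0
    · exact ⟨0, by rw [h0, map_zero, map_zero]; exact S.zero⟩
    · exact hco _ (hG _ (Set.mem_iUnion.2 ⟨j, Or.inr (Set.mem_iUnion₂.2
        ⟨ϑ, hϑ, Polynomial.coeff_mem_coeffs h0⟩)⟩))
  choose bm hbm using hcm
  obtain ⟨t, ht⟩ := hSΘ (ψ j (θ j)) (Or.inl (Or.inr ⟨j, rfl⟩))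
  -- the values of polynomials
  have hval : ∀ (q : Polynomial L) (b : ℕ → E),
      (∀ i, S.T (algebraMap L M' (q.coeff i)) (algebraMap E K'' (b i))) →
      S.T (ψ j (Polynomial.aeval (θ j) q))
        (∑ i ∈ Finset.range (q.natDegree + 1), algebraMap E K'' (b i) * t ^ i) := by
    intro q b hb
    rw [Polynomial.aeval_eq_sum_range, map_sum]
    refine S.sum _ fun i _ => ?_
    rw [map_smul, map_pow, Algebra.smul_def]
    exact S.mul (hb i) (S.pow ht i)
  have hint : IsIntegral L (θ j) := Algebra.IsIntegral.isIntegral (θ j)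
  obtain ⟨d, hd⟩ : ∃ d, d = (minpoly L (θ j)).natDegree := ⟨_, rfl⟩
  have hlead : bm d = 1 := by
    have h1 := hbm d
    have h2 : (minpoly L (θ j)).coeff d = 1 := by
      rw [hd]
      exact (minpoly.monic hint).coeff_natDegree
    rw [h2, map_one] at h1
    have h3 := S.ext h1 S.one
    exact (map_eq_one_iff _ (algebraMap E K'').injective).1 h3
  have hrel : ∑ i ∈ Finset.range (d + 1), algebraMap E K'' (bm i) * t ^ i = 0 := by
    have h1 := hval (minpoly L (θ j)) bm hbm
    rw [minpoly.aeval, map_zero, ← hd] at h1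
    exact S.uniq h1
  obtain ⟨q, hq⟩ : ∃ q : Polynomial E, q = ∑ i ∈ Finset.range (d + 1),
    Polynomial.C (bm i) * Polynomial.X ^ i := ⟨_, rfl⟩
  have hqt : Polynomial.aeval t q = 0 := by
    rw [hq, map_sum, ← hrel]
    exact Finset.sum_congr rfl fun i _ => by
      rw [map_mul, Polynomial.aeval_C, map_pow, Polynomial.aeval_X]
  have hqd : q.natDegree ≤ d := by
    rw [hq]
    refine Polynomial.natDegree_sum_le_of_forall_le _ _ fun i hi => ?_
    exact (Polynomial.natDegree_C_mul_X_pow_le _ _).trans (Finset.mem_range_succ_iff.1 hi)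
  have hq0 : q ≠ 0 := by
    intro h0
    have h1 := congrArg (fun p => Polynomial.coeff p d) h0
    rw [hq] at h1
    simp only [Polynomial.finsetSum_coeff, Polynomial.coeff_C_mul, Polynomial.coeff_X_pow,
      Polynomial.coeff_zero, mul_ite, mul_one, mul_zero, Finset.sum_ite_eq,
      Finset.mem_range, Nat.lt_succ_self, if_true] at h1
    rw [h1] at hlead
    exact zero_ne_one hlead
  have hti : IsIntegral E t := IsAlgebraic.isIntegral ⟨q, hq0, hqt⟩
  have hdeg : Module.finrank L (L' j) = d := by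
    rw [hd, ← IntermediateField.adjoin.finrank hint, hθ j]
    exact (IntermediateField.finrank_top' (F := L) (E := L' j)).symm
  refine ⟨E⟮t⟯, ?_, fun ϑ hϑ => ?_⟩
  · rw [IntermediateField.adjoin.finrank hti, hdeg]
    exact (Polynomial.natDegree_le_of_dvd (minpoly.dvd E t hqt) hq0).trans hqd
  · choose b hb using hcp ϑ hϑ
    have h1 := hval (p j ϑ) b hb
    rw [hp] at h1
    have h2 : ∑ i ∈ Finset.range ((p j ϑ).natDegree + 1), algebraMap E K'' (b i) * t ^ i ∈
        E⟮t⟯ := by
      refine sum_mem fun i _ => mul_mem (IntermediateField.algebraMap_mem _ _) (pow_mem ?_ _)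
      exact IntermediateField.mem_adjoin_simple_self E t
    exact ⟨⟨_, h2⟩, h1⟩

end Pool.Agent.N95.GP
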