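import Pool.Agent.N95.GP.Cur
import Pool.Agent.N95.GP.Spd
import Pool.Agent.Y221.PB.Hgt
import Pool.Agent.N111.GI.Cor
import Pool.Agent.Y216.Point

/-!
Linear degree bounds for the curves, and for the coverings of curves, in the varieties with
multi-valued maps to generic complete intersections.
-/

set_option autoImplicit false
set_option linter.unusedSectionVars false
set_option linter.overlappingInstances false

open FF IntermediateField

namespace Pool.Agent.N95.GP

open Pool.Agent.TH466.QG Pool.Agent.N111.FT Pool.Agent.N111.GG Pool.Agent.N111.GI Pool.Agent.W603.LV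
open Pool.Agent.W602.GT (val coords IsForm VarPts)
open Pool.Agent.W603.PV (pht pht_le isFF_of_finite hgt_algebraMap)
open Pool.Agent.Y216 (OnVar CurveBound)
open Pool.Agent.Y221.PB (alg_hgt)

/-- Outside a proper closed subset of the projective variety with generic point `u`, the degree of
every morphism to the variety from a covering of degree at most `ρ` of a smooth projective curve `C`
(with function field `B`) is at most `A max (2 g (C) - 2, 0)`. -/
def CoverBound (k : Type) [Field k] {L : Type} [Field L] [Algebra k L] {M : ℕ} (ρ : ℕ)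
    (u : Fin (M + 1) → L) : Prop :=
  ∃ G : MvPolynomial (Fin (M + 1)) k, IsForm G ∧ val u G ≠ 0 ∧ ∃ A : ℕ,
    ∀ (B E : Type) [Field B] [Field E] [Algebra k B] [Algebra k E] [Algebra B E]
      [IsScalarTower k B E] [FiniteDimensional B E] [IsFF k B] [IsFF k E],
      Module.finrank B E ≤ ρ → ∀ f : Fin (M + 1) → E, OnVar k u f → val f G ≠ 0 →
      pht k f ≤ A * max (canDeg k B) 0

theorem CoverBound.curve {k L : Type} [Field k] [Field L] [Algebra k L] {M ρ : ℕ}
    {u : Fin (M + 1) → L} (hρ : 1 ≤ ρ) (h : CoverBound k ρ u) : CurveBound k u := by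
  obtain ⟨G, hG, hGu, A, hA⟩ := h
  exact ⟨G, hG, hGu, A, fun K _ _ _ f hf hfG =>
    hA K K (by rw [Module.finrank_self]; exact hρ) f hf hfG⟩

/-- A multi-valued map, with at most `r` values, from the variety over `K` with function field `L` to
a generic complete intersection `X` (generic over `k`), for which the sum of the numbers `d a + 1` is
at least `2 m + R` and at least `2 m + 2`: a point of `X` with coordinates in an extension `L'` of `L`
of degree at most `r`. -/
structure MVMap (k K L : Type) [Field k] [Field K] [Algebra k K] [Field L] [Algebra K L]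
    (r R : ℕ) where
  /-- the target -/
  X : GenericCI k K
  bound : 2 * X.m + R ≤ ∑ a, (X.d a + 1)
  bound' : 2 * X.m + 2 ≤ ∑ a, (X.d a + 1)
  /-- the extension of the function field -/
  L' : Type
  [field : Field L']
  [algK : Algebra K L']
  [algL : Algebra L L']
  [tower : IsScalarTower K L L']
  [fd : FiniteDimensional L L']
  deg_le : Module.finrank L L' ≤ r
  /-- the point -/
  x : Fin (X.n + 1) → L'
  pt : X.Point x

attribute [instance] MVMap.field MVMap.algK MVMap.algL MVMap.tower MVMap.fd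

/-- The values of the ratios of the coordinates under all branches of the multi-valued map. -/
def MVMap.values {k K L : Type} [Field k] [Field K] [Algebra k K] [Field L] [Algebra K L] {r R : ℕ}
    (C : MVMap k K L r R) (Ω : Type) [Field Ω] [Algebra L Ω] : Set Ω :=
  {z | ∃ (ψ : C.L' →ₐ[L] Ω) (i j : Fin (C.X.n + 1)), C.x j ≠ 0 ∧ z = ψ (C.x i / C.x j)}

section

variable {k K L : Type} [Field k] [Field K] [IsAlgClosed K] [CharZero K] [Algebra k K] [Field L]
  [Algebra K L] {r ρ : ℕ}

/-- **Linear degree bounds**, for a finite family of multi-valued maps. -/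
theorem fam_bound {J : Type} [Finite J] (C : J → MVMap k K L r (ρ * r)) {M' : Type} [Field M']
    [Algebra K M'] [Algebra L M'] [IsScalarTower K L M'] [FiniteDimensional L M']
    (ψ : ∀ j, (C j).L' →ₐ[L] M') (ci cj : ∀ j, Fin ((C j).X.n + 1)) (hcj : ∀ j, (C j).x (cj j) ≠ 0)
    {M : ℕ} {u : Fin (M + 1) → L} (hu : u ≠ 0) (hgen : coords K u = ⊤)
    (hh : ∀ z : L, algebraMap L M' z ∈
      aclo K (Set.range fun j => ψ j ((C j).x (ci j) / (C j).x (cj j)))) :
    CoverBound K ρ u := by
  classical
  have := Fintype.ofFinite J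
  obtain ⟨i1, hi1'⟩ := Function.ne_iff.1 hu
  have hi1 : u i1 ≠ 0 := hi1'
  obtain ⟨vv, hvv⟩ : ∃ vv : J → M', vv = fun j => ψ j ((C j).x (ci j) / (C j).x (cj j)) :=
    ⟨_, rfl⟩
  rw [← hvv] at hh
  -- the bounds for the points of the generic complete intersections
  have hac : IsAlgClosed (algebraicClosure k K) := (algebraicClosure.isAlgClosure k K).isAlgClosed
  choose Bd hBd using fun j => curve_bound (k0 := algebraicClosure k K) (k := K) (R := ρ * r)
    (C j).X.V (C j).X.V_form (C j).X.V_dim (C j).bound (C j).bound' (C j).X.F (C j).X.F_form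
    (C j).X.I₀ (C j).X.coeff_ne (C j).X.generic.algebraicClosure
  -- the field of the values
  obtain ⟨K1, hK1⟩ : ∃ K1 : IntermediateField K M', K1 = adjoin K (Set.range vv) := ⟨_, rfl⟩
  have hvK : ∀ j, vv j ∈ K1 := fun j => by rw [hK1]; exact subset_adjoin _ _ ⟨j, rfl⟩
  have halg : Algebra.IsAlgebraic K1 M' := by
    constructor
    intro t
    rw [hK1, ← mem_aclo]
    apply aclo_closed
    obtain ⟨q, hq, hqt⟩ := Algebra.IsAlgebraic.isAlgebraic (R := L) t
    let φ : L →+* aclo K (Set.range vv) := (algebraMap L M').codRestrict _ hh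
    refine ⟨q.map φ, ?_, ?_⟩
    · rw [Ne, Polynomial.map_eq_zero]
      exact hq
    · rw [← hqt, Polynomial.aeval_def, Polynomial.eval₂_map, Polynomial.aeval_def]
      rfl
  obtain ⟨p, hp⟩ : ∃ p, p = Fintype.card J := ⟨_, rfl⟩
  let e : Fin p ≃ J := (Fintype.equivFinOfCardEq hp.symm).symm
  let y : Fin (p + 1) → K1 := Fin.cons 1 fun i => ⟨vv (e i), hvK _⟩
  have hy0 : y 0 = 1 := rfl
  have hys : ∀ i : Fin p, ((y i.succ : K1) : M') = vv (e i) := fun i => rfl
  have hygen : coords K y = ⊤ := by
    rw [eq_top_iff]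
    rintro ⟨t, ht⟩ -
    have h1 : adjoin K (Set.range vv) ≤ (coords K y).map K1.val := by
      rw [adjoin_le_iff]
      rintro _ ⟨j, rfl⟩
      refine ⟨y (e.symm j).succ, ?_, ?_⟩
      · unfold coords
        refine subset_adjoin _ _ ⟨(e.symm j).succ, 0, ?_, ?_⟩
        · rw [hy0]
          exact one_ne_zero
        · rw [hy0, div_one]
      · change ((y (e.symm j).succ : K1) : M') = vv j
        rw [hys, Equiv.apply_symm_apply]
    obtain ⟨t', ht', h2⟩ := h1 (hK1 ▸ ht)
    have h3 : t' = ⟨t, ht⟩ := Subtype.ext h2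
    rw [← h3]
    exact ht'
  obtain ⟨Θ2, Ca, hΘ2, halgs⟩ := alg_hgt (k := K) (K := K1) (K' := M') hygen (i0 := 0)
    (by rw [hy0]; exact one_ne_zero) (fun m : Fin (M + 1) => algebraMap L M' (u m / u i1))
  obtain ⟨H, hH, hspread⟩ := spread_deg (k := K) (L := L) (M' := M') (adjoin_norm hgen hi1)
    (Θ := algebraMap K1 M' '' Θ2) (hΘ2.image _) ψ
    (Θ' := fun j => Set.range fun i => (C j).x i / (C j).x (cj j)) fun j => Set.finite_range _
  obtain ⟨N, hN⟩ : ∃ N, N = Module.finrank L M' := ⟨_, rfl⟩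
  refine ⟨MvPolynomial.X i1 * hz i1 H, ?_, ?_, (M + 1) * (Ca * (∑ j, N * Bd j)), ?_⟩
  · obtain ⟨d, hd⟩ := hz_form i1 H
    exact ⟨1 + d, (MvPolynomial.isHomogeneous_X K i1).mul hd⟩
  · change MvPolynomial.aeval u _ ≠ 0
    rw [map_mul, MvPolynomial.aeval_X]
    refine mul_ne_zero hi1 ?_
    change val u _ ≠ 0
    rw [val_hz H hi1]
    exact mul_ne_zero (pow_ne_zero _ hi1) hH
  intro B E _ _ _ _ _ _ _ _ _ hρ z hz hzR
  change MvPolynomial.aeval z _ ≠ 0 at hzR
  rw [map_mul, MvPolynomial.aeval_X] at hzR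
  have hz1 : z i1 ≠ 0 := left_ne_zero_of_mul hzR
  have hzH : MvPolynomial.aeval (fun i => z i / z i1) H ≠ 0 := by
    have h1 : val z (Pool.Agent.TH466.QG.hz i1 H) ≠ 0 := right_ne_zero_of_mul hzR
    rw [val_hz H hz1] at h1
    exact right_ne_zero_of_mul h1
  have hsp : ∀ G : MvPolynomial (Fin (M + 1)) K,
      MvPolynomial.aeval (fun i => u i / u i1) G = 0 →
      MvPolynomial.aeval (fun i => z i / z i1) G = 0 := by
    intro G hG
    have h1 : val u (Pool.Agent.TH466.QG.hz i1 G) = 0 := by
      rw [val_hz G hi1, hG, mul_zero]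
    have h2 := hz.2 _ (hz_form i1 G) h1
    rw [val_hz G hz1] at h2
    exact (mul_eq_zero.1 h2).resolve_left (pow_ne_zero _ hz1)
  obtain ⟨K'', i1', i2', i3', i4', i5', hrk, S, hSx, hSΘ, hSj⟩ := hspread E
    (fun i => z i / z i1) hsp hzH
  have hff : IsFF K K'' := isFF_of_finite (F := E)
  obtain ⟨χ, hχ⟩ : ∃ χ : ℤ, χ = max (canDeg K B) 0 := ⟨_, rfl⟩
  have hχ0 : 0 ≤ χ := by rw [hχ]; exact le_max_right _ _
  rw [← hχ]
  -- the specializations of the values
  have key : ∀ j, ∃ v' : K'', S.T (vv j) v' ∧ hgt K v' ≤ (N * Bd j : ℕ) * χ := by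
    intro j
    obtain ⟨F, hF, hFΘ⟩ := hSj j
    choose yj hyj using fun i => hFΘ ((C j).x i / (C j).x (cj j)) ⟨i, rfl⟩
    have hst : IsScalarTower K F K'' := IsScalarTower.of_algebraMap_eq fun _ => rfl
    have hFF : IsFF K F := isFF_of_finite (F := E)
    let iA : Algebra B F := ((algebraMap E F).comp (algebraMap B E)).toAlgebra
    have iT1 : IsScalarTower B E F := IsScalarTower.of_algebraMap_eq fun _ => rfl
    have iT2 : IsScalarTower K B F := IsScalarTower.of_algebraMap_eq fun c => by
      change _ = algebraMap E F (algebraMap B E (algebraMap K B c))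
      rw [← IsScalarTower.algebraMap_apply K B E, ← IsScalarTower.algebraMap_apply K E F]
    have iF : FiniteDimensional B F := FiniteDimensional.trans B E F
    have hfr : Module.finrank B F ≤ ρ * r := by
      rw [← Module.finrank_mul_finrank B E F]
      exact Nat.mul_le_mul hρ (hF.trans (C j).deg_le)
    have hyj1 : yj (cj j) = 1 := by
      have h1 := hyj (cj j)
      rw [div_self (hcj j), map_one] at h1
      exact Subtype.ext (S.ext h1 S.one)
    have hyj0 : yj ≠ 0 := by
      intro h
      rw [h] at hyj1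
      exact zero_ne_one hyj1
    have hev : ∀ (d : ℕ) (P : MvPolynomial (Fin ((C j).X.n + 1)) K), P.IsHomogeneous d →
        MvPolynomial.aeval (C j).x P = 0 → MvPolynomial.aeval yj P = 0 := by
      intro d P hP h
      have h0 : MvPolynomial.aeval (fun i => (yj i : K'')) P = 0 := by
        refine S.eq_zero (sp_val S hyj P) ?_
        have h1 : MvPolynomial.aeval (fun i => ψ j ((C j).x i / (C j).x (cj j))) P =
            ψ j (MvPolynomial.aeval (fun i => (C j).x i / (C j).x (cj j)) P) := by
          have h2 : ((ψ j).restrictScalars K).comp (MvPolynomial.aeval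
              (fun i => (C j).x i / (C j).x (cj j))) =
              MvPolynomial.aeval (fun i => ψ j ((C j).x i / (C j).x (cj j))) := by
            apply MvPolynomial.algHom_ext
            intro i
            simp
          rw [← h2]
          rfl
        rw [h1, aeval_div hP, h, mul_zero, map_zero]
      apply (algebraMap F K'').injective
      rw [map_zero, ← h0]
      exact (MvPolynomial.aeval_algebraMap_apply K'' yj P).symm
    have h1 := hBd j B F hfr yj hyj0 (fun f hf => by
      obtain ⟨d, hd⟩ := (C j).X.V_form f hf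
      exact hev d _ (hd.map _) ((C j).pt.mem_V f hf))
      (fun a => hev _ _ ((C j).X.F_form a) ((C j).pt.mem_F a))
    rw [← hχ] at h1
    refine ⟨yj (ci j), by rw [hvv]; exact hyj (ci j), ?_⟩
    have h2 : hgt K ((yj (ci j) : F) : K'') = Module.finrank F K'' * hgt K (yj (ci j)) :=
      hgt_algebraMap (k := K) (F := F) (L := K'') (yj (ci j))
    have h3 : hgt K (yj (ci j)) ≤ Bd j * χ := by
      by_cases hj : yj (ci j) = 0
      · rw [hj, hgt_zero]
        exact mul_nonneg (by positivity) hχ0
      · have h4 := Pool.Agent.W603.CX.hgt_le_pht (k := K) yj hj (l := cj j)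
          (by rw [hyj1]; exact one_ne_zero)
        rw [hyj1, div_one] at h4
        exact h4.trans h1
    have h4 : Module.finrank F K'' ≤ N := by
      have h5 := Module.finrank_mul_finrank E F K''
      have h6 := Module.finrank_pos (R := E) (M := F)
      rw [hN]
      nlinarith
    rw [h2]
    have h5 : (Module.finrank F K'' : ℤ) ≤ N := by exact_mod_cast h4
    refine (mul_le_mul h5 h3 (hgt_nonneg _) (by positivity)).trans (le_of_eq ?_)
    push_cast
    ring
  choose v' hv'S hv'h using key
  obtain ⟨y', hy'⟩ : ∃ y' : Fin (p + 1) → K'', y' = Fin.cons 1 fun i => v' (e i) := ⟨_, rfl⟩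
  have hy'0 : y' 0 = 1 := by rw [hy']; rfl
  have hy's : ∀ i : Fin p, y' i.succ = v' (e i) := fun i => by rw [hy']; rfl
  have hyS : ∀ i, S.T (algebraMap K1 M' (y i)) (y' i) := by
    intro i
    refine Fin.cases ?_ (fun i => ?_) i
    · rw [hy0, hy'0, map_one]
      exact S.one
    · rw [hy's]
      exact hv'S (e i)
  have hpht : pht K y' ≤ (∑ j, N * Bd j : ℕ) * χ := by
    refine (pht_le (k := K) y' (l := 0) (by rw [hy'0]; exact one_ne_zero)).trans ?_
    rw [hy'0, Fin.sum_univ_succ, hy'0, div_one]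
    have h0 : hgt K (1 : K'') = 0 := hgt_one
    rw [h0, zero_add]
    have h1 : ∑ i : Fin p, hgt K (y' i.succ / 1) = ∑ j, hgt K (v' j) := by
      rw [← Equiv.sum_comp e]
      exact Finset.sum_congr rfl fun i _ => by rw [div_one, hy's]
    rw [h1, Nat.cast_sum, Finset.sum_mul]
    exact Finset.sum_le_sum fun j _ => hv'h j
  have h2 : ∀ m, hgt K (algebraMap E K'' (z m / z i1)) ≤ Ca * pht K y' := fun m =>
    halgs K'' S (fun ϑ hϑ => hSΘ _ ⟨ϑ, hϑ, rfl⟩) y' hyS _ hSx m
  have h3 : pht K z ≤ (M + 1) * (Ca * pht K y') := by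
    refine (pht_le z hz1).trans ?_
    have h4 : ∀ j, hgt K (z j / z i1) ≤ Ca * pht K y' := by
      intro j
      refine le_trans ?_ (h2 j)
      rw [hgt_algebraMap (k := K) (F := E) (L := K'') (z j / z i1)]
      have h6 : (1 : ℤ) ≤ Module.finrank E K'' := by exact_mod_cast Module.finrank_pos
      have h7 : 0 ≤ hgt K (z j / z i1) := hgt_nonneg _
      nlinarith
    refine (Finset.sum_le_sum fun j _ => h4 j).trans (le_of_eq ?_)
    rw [Finset.sum_const, nsmul_eq_mul, Finset.card_univ, Fintype.card_fin]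
    push_cast
    ring
  refine h3.trans ?_
  have h8 : (Ca : ℤ) * pht K y' ≤ Ca * ((∑ j, N * Bd j : ℕ) * χ) :=
    mul_le_mul_of_nonneg_left hpht (Nat.cast_nonneg _)
  have h9 := mul_le_mul_of_nonneg_left h8 (by positivity : (0 : ℤ) ≤ (M : ℤ) + 1)
  refine h9.trans (le_of_eq ?_)
  push_cast
  ring

/-- **Linear degree bounds**, if all functions are algebraic over the values. -/
theorem joint_bound (Ω : Type) [Field Ω] [Algebra K Ω] [Algebra L Ω] [IsScalarTower K L Ω]
    {M : ℕ} {u : Fin (M + 1) → L} (hu : u ≠ 0) (hgen : coords K u = ⊤)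
    (hh : ∀ z : L, algebraMap L Ω z ∈ aclo K (⋃ C : MVMap k K L r (ρ * r), C.values Ω)) :
    CoverBound K ρ u := by
  classical
  obtain ⟨i1, hi1'⟩ := Function.ne_iff.1 hu
  have hi1 : u i1 ≠ 0 := hi1'
  -- finitely many values
  choose T hTV hT using fun m : Fin (M + 1) => aclo_finite (hh (u m / u i1))
  let W : Set Ω := ⋃ m, (T m : Set Ω)
  have hWf : W.Finite := Set.finite_iUnion fun m => (T m).finite_toSet
  have hWF : Finite W := hWf
  have hW : ∀ v : W, ∃ (C : MVMap k K L r (ρ * r)) (ψ : C.L' →ₐ[L] Ω)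
      (i j : Fin (C.X.n + 1)), C.x j ≠ 0 ∧ (v : Ω) = ψ (C.x i / C.x j) := by
    rintro ⟨v, hv⟩
    obtain ⟨m, hm⟩ := Set.mem_iUnion.1 hv
    obtain ⟨C, ψ, i, j, hj, hz⟩ := Set.mem_iUnion.1 (hTV m hm)
    exact ⟨C, ψ, i, j, hj, hz⟩
  choose C ψ ci cj hcj hzv using hW
  let M' : IntermediateField L Ω := ⨆ v : W, (ψ v).fieldRange
  have hfr : ∀ v, FiniteDimensional L (ψ v).fieldRange := fun v =>
    LinearMap.finiteDimensional_range (ψ v).toLinearMap
  have hM : FiniteDimensional L M' := IntermediateField.finiteDimensional_iSup_of_finite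
  let ψ' : ∀ v, (C v).L' →ₐ[L] M' := fun v => (ψ v).codRestrict M'.toSubalgebra (fun z =>
    (le_iSup (fun v => (ψ v).fieldRange) v) ⟨z, rfl⟩)
  refine fam_bound C ψ' ci cj hcj hu hgen fun z => ?_
  have h1 : ∀ m, algebraMap L Ω (u m / u i1) ∈
      aclo K ((M'.val.restrictScalars K) '' (Set.range fun v => ψ' v ((C v).x (ci v) /
        (C v).x (cj v)))) := by
    intro m
    refine aclo_mono ?_ (hT m)
    intro v hv
    let v' : W := ⟨v, Set.mem_iUnion.2 ⟨m, hv⟩⟩
    exact ⟨ψ' v' ((C v').x (ci v') / (C v').x (cj v')), ⟨v', rfl⟩, (hzv v').symm⟩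
  have h2 : ∀ z : L, algebraMap L Ω z ∈
      aclo K ((M'.val.restrictScalars K) '' (Set.range fun v => ψ' v ((C v).x (ci v) /
        (C v).x (cj v)))) := by
    intro z
    have h3 : (⊤ : IntermediateField K L) ≤ (aclo K ((M'.val.restrictScalars K) ''
        (Set.range fun v => ψ' v ((C v).x (ci v) / (C v).x (cj v))))).comap
        (IsScalarTower.toAlgHom K L Ω) := by
      rw [← adjoin_norm hgen hi1, adjoin_le_iff]
      rintro _ ⟨m, rfl⟩
      exact h1 m
    exact h3 (mem_top (x := z))
  rw [← map_mem_aclo_iff (M'.val.restrictScalars K)]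
  exact h2 z

end

end Pool.Agent.N95.GP
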