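import Pool.Agent.Y735.R2.Core

/-!
Points of bounded degree over varying function fields, with elements whose traces have small heights:
the heights of the points are bounded linearly, by a comparison in an ultraproduct.
-/

set_option autoImplicit false
set_option linter.unusedSectionVars false
set_option linter.overlappingInstances false

open MvPolynomial FF Pool.Agent.W603.LV Pool.Agent.W603.PV Pool.Agent.W602.RG
open Pool.Agent.TH145 Pool.Agent.TH145.GH
open Pool.Agent.Y735.R2
open Filter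

namespace Pool.Agent.N95.GP

theorem embed_of {k Ω : Type} [Field k] [CharZero k] [Field Ω] [Algebra k Ω] [IsAlgClosed Ω]
    (φ : FractionRing (MvPolynomial Unit k) →ₐ[k] Ω) (L : Type) [Field L] [Algebra k L]
    [IsFF k L] : Nonempty (L →ₐ[k] Ω) := by
  classical
  obtain ⟨t, ht⟩ : ∃ t : L, Transcendental k t := by
    have h1 := IsFF.trdeg (k := k) (K := L)
    by_contra hcon
    push Not at hcon
    have h2 : Algebra.IsAlgebraic k L := ⟨fun x => by
      have := hcon x
      rwa [Transcendental, not_not] at this⟩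
    rw [trdeg_eq_zero] at h1
    exact zero_ne_one h1
  have hb := IsFF.basis (k := k) ht
  have hi := hb.1
  let e := hi.aevalEquivField
  let F := IntermediateField.adjoin k (Set.range fun _ : Unit => t)
  let φ0 : F →ₐ[k] Ω := φ.comp (e.symm : F →ₐ[k] FractionRing (MvPolynomial Unit k))
  let _ : Algebra F Ω := φ0.toRingHom.toAlgebra
  have hst2 : IsScalarTower k F Ω := IsScalarTower.of_algebraMap_eq fun c => (φ0.commutes c).symm
  have halg : Algebra.IsAlgebraic F L := hb.isAlgebraic_field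
  let ψ : L →ₐ[F] Ω := IsAlgClosed.lift
  exact ⟨ψ.restrictScalars k⟩

/-- Embeddings of all function fields of one variable into one field. -/
theorem exists_embed (k : Type) [Field k] [CharZero k] :
    ∃ (Ω : Type) (_ : Field Ω) (_ : Algebra k Ω), IsAlgClosed Ω ∧ CharZero Ω ∧
      ∀ (L : Type) [Field L] [Algebra k L] [IsFF k L], Nonempty (L →ₐ[k] Ω) :=
  ⟨AlgebraicClosure (FractionRing (MvPolynomial Unit k)), inferInstance, inferInstance,
    inferInstance,
    charZero_of_injective_algebraMap (algebraMap k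
      (AlgebraicClosure (FractionRing (MvPolynomial Unit k)))).injective,
    fun L _ _ _ => embed_of (IsScalarTower.toAlgHom k (FractionRing (MvPolynomial Unit k))
      (AlgebraicClosure (FractionRing (MvPolynomial Unit k)))) L⟩

/-- A point of degree `s` over a function field `K` of one variable, and an element `θ` such that the
traces of its products with `s` coordinates of the point have ratios to `c` of height at most `h`. -/
structure Dat (k : Type) [Field k] (n s : ℕ) (l0 : Fin (n + 1)) where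
  K : Type
  L : Type
  [fK : Field K]
  [fL : Field L]
  [akK : Algebra k K]
  [akL : Algebra k L]
  [aKL : Algebra K L]
  [st : IsScalarTower k K L]
  [ffK : IsFF k K]
  [ffL : IsFF k L]
  [fd : FiniteDimensional K L]
  fr : Module.finrank K L = s
  x : Fin (n + 1) → L
  xl : x l0 = 1
  gen : IntermediateField.adjoin K (Set.range x) = ⊤
  θ : L
  θ0 : θ ≠ 0
  c : K
  c0 : c ≠ 0
  h : ℤ
  h0 : 0 ≤ h
  tr : ∀ f : Fin s → Fin (n + 1), hgt k (Algebra.trace K L ((∏ i, x (f i)) * θ) / c) ≤ h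

attribute [instance] Dat.fK Dat.fL Dat.akK Dat.akL Dat.aKL Dat.st Dat.ffK Dat.ffL Dat.fd

variable {k : Type} [Field k] [IsAlgClosed k] [CharZero k] {n s : ℕ} {l0 : Fin (n + 1)}
  {Ω : Type} [Field Ω] [Algebra k Ω]

/-- The classes of the sequences of linearly bounded height. -/
noncomputable def LH (S : ℕ → Dat k n s l0) (φ : ∀ M, (S M).L →ₐ[k] Ω) : Subfield (Om Ω) where
  carrier := {z | ∃ (w : ∀ M, (S M).K) (C : ℕ), (∀ M, hgt k (w M) ≤ C * (S M).h) ∧
    z = Om.mk fun M => φ M (algebraMap (S M).K (S M).L (w M))}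
  mul_mem' := by
    rintro _ _ ⟨w, H, hw, rfl⟩ ⟨w', H', hw', rfl⟩
    refine ⟨fun m => w m * w' m, H + H', fun m => (MW.hgt_mul_le _ _).trans
      ((add_le_add (hw m) (hw' m)).trans (by push_cast; linarith)), ?_⟩
    rw [Om.mk_mul]
    congr 1
    funext m
    rw [map_mul, map_mul]
  one_mem' := ⟨fun _ => 1, 0, fun m => by
    have := MG.hgt_const (k := k) (L := (S m).K) 1
    rw [map_one] at this
    rw [this]
    simp, by
    rw [← Om.mk_one]
    congr 1
    funext m
    rw [map_one, map_one]⟩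
  add_mem' := by
    rintro _ _ ⟨w, H, hw, rfl⟩ ⟨w', H', hw', rfl⟩
    refine ⟨fun m => w m + w' m, H + H', fun m => (MW.hgt_add_le _ _).trans
      ((add_le_add (hw m) (hw' m)).trans (by push_cast; linarith)), ?_⟩
    rw [Om.mk_add]
    congr 1
    funext m
    rw [map_add, map_add]
  zero_mem' := ⟨fun _ => 0, 0, fun m => by
    have := MG.hgt_const (k := k) (L := (S m).K) 0
    rw [map_zero] at this
    rw [this]
    simp, by
    rw [← Om.mk_zero]
    congr 1
    funext m
    rw [map_zero, map_zero]⟩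
  neg_mem' := by
    rintro _ ⟨w, H, hw, rfl⟩
    refine ⟨fun m => -w m, H, fun m => by rw [MW.hgt_neg]; exact hw m, ?_⟩
    change Om.mk (fun m => - φ m (algebraMap (S m).K (S m).L (w m))) = _
    congr 1
    funext m
    rw [map_neg, map_neg]
  inv_mem' := by
    rintro _ ⟨w, H, hw, rfl⟩
    refine ⟨fun m => (w m)⁻¹, H, fun m => by rw [hgt_inv]; exact hw m, ?_⟩
    change Om.mk (fun m => (φ m (algebraMap (S m).K (S m).L (w m)))⁻¹) = _
    congr 1
    funext m
    rw [map_inv₀, map_inv₀]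

theorem mem_LH {S : ℕ → Dat k n s l0} {φ : ∀ M, (S M).L →ₐ[k] Ω} {w : ∀ M, (S M).K} {C : ℕ}
    (h : ∀ M, hgt k (w M) ≤ C * (S M).h) :
    Om.mk (fun M => φ M (algebraMap (S M).K (S M).L (w M))) ∈ LH S φ := ⟨w, C, h, rfl⟩

theorem cst_mem_LH {S : ℕ → Dat k n s l0} {φ : ∀ M, (S M).L →ₐ[k] Ω} (a : k) :
    cst Ω (algebraMap k Ω a) ∈ LH S φ := by
  refine ⟨fun M => algebraMap k (S M).K a, 0, fun M => by rw [MG.hgt_const]; simp, ?_⟩
  change Om.mk (fun _ => algebraMap k Ω a) = _
  congr 1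
  funext M
  rw [← IsScalarTower.algebraMap_apply k (S M).K (S M).L, (φ M).commutes]

/-- An algebraic equation. -/
theorem alg_LH {S : ℕ → Dat k n s l0} {φ : ∀ M, (S M).L →ₐ[k] Ω} {z : ℕ → Ω}
    (h : IsIntegral (LH S φ) (Om.mk z)) :
    ∃ (N : ℕ) (w : ℕ → ∀ M, (S M).K) (C : ℕ), (∀ i ∈ Finset.range N, ∀ m,
        hgt k (w i m) ≤ C * (S m).h) ∧
      ∀ᶠ m in (hyperfilter ℕ : Filter ℕ),
        z m ^ N + ∑ i ∈ Finset.range N, φ m (algebraMap (S m).K (S m).L (w i m)) * z m ^ i = 0 := by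
  classical
  obtain ⟨p, hp⟩ : ∃ p, p = minpoly (LH S φ) (Om.mk z) := ⟨_, rfl⟩
  have hpm : p.Monic := by rw [hp]; exact minpoly.monic h
  have hp0 : Polynomial.aeval (Om.mk z) p = 0 := by rw [hp]; exact minpoly.aeval _ _
  obtain ⟨N, hN⟩ : ∃ N, N = p.natDegree := ⟨_, rfl⟩
  have hc : ∀ i, ∃ (w : ∀ M, (S M).K) (C : ℕ), (∀ m, hgt k (w m) ≤ C * (S m).h) ∧
      (p.coeff i : Om Ω) = Om.mk fun m => φ m (algebraMap (S m).K (S m).L (w m)) :=
    fun i => (p.coeff i).2
  choose w C hC hw using hc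
  refine ⟨N, w, ∑ i ∈ Finset.range N, C i, fun i hi m => (hC i m).trans ?_, ?_⟩
  · refine mul_le_mul_of_nonneg_right ?_ (S m).h0
    exact_mod_cast Finset.single_le_sum (f := C) (fun j _ => Nat.zero_le _) hi
  · rw [hpm.as_sum, ← hN, map_add, map_pow, Polynomial.aeval_X, map_sum] at hp0
    have h1 : ∀ i, Polynomial.aeval (Om.mk z) (Polynomial.C (p.coeff i) * Polynomial.X ^ i) =
        MF.mkHom Ω (fun m => φ m (algebraMap (S m).K (S m).L (w i m)) * z m ^ i) := by
      intro i
      rw [map_mul, map_pow, Polynomial.aeval_X, Polynomial.aeval_C]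
      have h2 : algebraMap (LH S φ) (Om Ω) (p.coeff i) =
          MF.mkHom Ω (fun m => φ m (algebraMap (S m).K (S m).L (w i m))) := hw i
      have h3 : Om.mk z = MF.mkHom Ω z := rfl
      rw [h2, h3, ← map_pow, ← map_mul]
      rfl
    rw [Finset.sum_congr rfl fun i _ => h1 i, ← map_sum] at hp0
    have h4 : Om.mk z ^ N = MF.mkHom Ω (fun m => z m ^ N) := by
      have h3 : Om.mk z = MF.mkHom Ω z := rfl
      rw [h3, ← map_pow]
      rfl
    rw [h4, ← map_add] at hp0
    have h5 := Om.mk_eq.1 (hp0.trans (map_zero (MF.mkHom Ω)).symm)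
    filter_upwards [h5] with m hm
    rw [Pi.add_apply, Finset.sum_apply, Pi.zero_apply] at hm
    exact hm

/-- **Linear bounds for the heights**, if there are no lines. -/
theorem unif_bound {k0 : Type} [Field k0] [Algebra k0 k] {A : Type}
    (V : Set (MvPolynomial (Fin (n + 1)) k0)) (F : A → MvPolynomial (Fin (n + 1)) k)
    (hNL : NoLine (algebraMap k0 k) V F l0) :
    ∃ B : ℕ, ∀ D : Dat k n s l0, (∀ f ∈ V, aeval D.x (map (algebraMap k0 k) f) = 0) →
      (∀ a, aeval D.x (F a) = 0) → ∑ j, hgt k (D.x j) ≤ B * D.h := by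
  classical
  by_contra hcon
  push Not at hcon
  choose S hSV hSF hSB using hcon
  obtain ⟨Ω, _, _, hac, hcz, hemb⟩ := exists_embed k
  have hφ : ∀ M, Nonempty ((S M).L →ₐ[k] Ω) := fun M => hemb (S M).L
  obtain ⟨φ⟩ : Nonempty (∀ M, (S M).L →ₐ[k] Ω) := ⟨fun M => (hφ M).some⟩
  have hs0 : 0 < s := by rw [← (S 0).fr]; exact Module.finrank_pos
  have hacOm : IsAlgClosed (Om Ω) := Pool.Agent.W917.RG.GAC.main Ω
  have hczOm : CharZero (Om Ω) :=
    charZero_of_injective_algebraMap (algebraMap Ω (Om Ω)).injective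
  -- the embeddings
  have hen : ∀ M, ∃ ε : Fin s → ((S M).L →+* Ω),
      (∀ e y, ε e (algebraMap (S M).K (S M).L y) = φ M (algebraMap (S M).K (S M).L y)) ∧
      Function.Injective (fun e j => ε e ((S M).x j)) ∧
      (∀ y, φ M (algebraMap (S M).K (S M).L (Algebra.trace (S M).K (S M).L y)) = ∑ e, ε e y) ∧
      ∀ y, ε ⟨0, hs0⟩ y = φ M y := by
    intro M
    let _ : Algebra (S M).K Ω := ((φ M).toRingHom.comp (algebraMap (S M).K (S M).L)).toAlgebra
    let _ : Algebra (S M).L Ω := (φ M).toRingHom.toAlgebra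
    have hst : IsScalarTower (S M).K (S M).L Ω := IsScalarTower.of_algebraMap_eq fun _ => rfl
    have hczK : CharZero (S M).K :=
      charZero_of_injective_algebraMap (algebraMap k (S M).K).injective
    obtain ⟨ε, h1, h2, h3⟩ := exists_enum (Ω := Ω) (S M).fr (S M).x (S M).gen ⟨0, hs0⟩
    exact ⟨fun e => (ε e : (S M).L →+* Ω), fun e y => (ε e).commutes y, h1, h2, h3⟩
  choose ε hεK hεi hεt hε0 using hen
  -- the field
  obtain ⟨𝕂, h𝕂, h𝕂a, h𝕂i⟩ : ∃ 𝕂 : Subfield (Om Ω), LH S φ ≤ 𝕂 ∧ IsAlgClosed 𝕂 ∧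
      ∀ z ∈ 𝕂, IsIntegral (LH S φ) z := by
    refine ⟨acl (LH S φ : Set (Om Ω)), subset_acl _, acl_isAlgClosed _, fun z hz => ?_⟩
    have h1 := mem_acl.1 hz
    have h2 : ∀ S T : Subfield (Om Ω), S = T → IsAlgebraic S z → IsAlgebraic T z := by
      rintro S _ rfl
      exact id
    exact (h2 _ _ (Subfield.closure_eq _) h1).isIntegral
  have h𝕂c : CharZero 𝕂 := (algebraMap 𝕂 (Om Ω)).charZero
  obtain ⟨u, u', t, hu, hu', hxu⟩ := dec (k := 𝕂) (Ω := Om Ω) (D := s) le_rfl
    (fun e j => Om.mk fun M => ε M e ((S M).x j))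
    (by
      intro e e' h
      by_contra hne
      have h1 : ∀ j, ∀ᶠ M in (hyperfilter ℕ : Filter ℕ), ε M e ((S M).x j) = ε M e' ((S M).x j) :=
        fun j => Om.mk_eq.1 (congrFun h j)
      obtain ⟨M, hM⟩ := (eventually_all.2 h1).exists
      exact hne (hεi M (funext hM)))
    (l0 := l0) (by
      intro e
      have h1 : (fun M => ε M e ((S M).x l0)) = fun _ => 1 := funext fun M => by
        rw [(S M).xl, map_one]
      rw [h1]
      rfl)
    (fun e => Om.mk fun M => ε M e ((S M).θ) / φ M (algebraMap (S M).K (S M).L (S M).c))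
    (by
      intro e h
      have h1 := Om.mk_eq.1 (h.trans Om.mk_zero.symm)
      obtain ⟨M, hM⟩ := h1.exists
      refine div_ne_zero ((map_ne_zero _).2 (S M).θ0) ((map_ne_zero _).2 ?_) hM
      exact (map_ne_zero _).2 (S M).c0)
    (by
      intro f
      refine ⟨⟨Om.mk fun M => φ M (algebraMap (S M).K (S M).L (Algebra.trace (S M).K (S M).L
        ((∏ i, (S M).x (f i)) * (S M).θ) / (S M).c)), h𝕂 (mem_LH (C := 1) fun M => by
          rw [Nat.cast_one, one_mul]
          exact (S M).tr f)⟩, ?_⟩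
      refine mk_sum_prod (fun e M => ε M e ((S M).θ) / φ M (algebraMap (S M).K (S M).L (S M).c))
        (fun e i M => ε M e ((S M).x (f i))) _ fun M => ?_
      rw [map_div₀, map_div₀, hεt, Finset.sum_div]
      refine Finset.sum_congr rfl fun e _ => ?_
      rw [map_mul, map_prod]
      ring) ⟨0, hs0⟩
  -- the point is algebraic over the field
  obtain ⟨ρ, hρ⟩ : ∃ ρ : k →+* 𝕂, (algebraMap 𝕂 (Om Ω)).comp ρ =
    (cst Ω).comp (algebraMap k Ω) :=
    ⟨((cst Ω).comp (algebraMap k Ω)).codRestrict 𝕂 fun a => h𝕂 (cst_mem_LH a), rfl⟩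
  have hpt : ∀ j, (Om.mk fun M => ε M ⟨0, hs0⟩ ((S M).x j)) = Om.mk fun M => φ M ((S M).x j) :=
    fun j => congrArg Om.mk (funext fun M => hε0 M _)
  have hcom : ∀ {R : Type} [Field R] (σ : R →+* k) (f : MvPolynomial (Fin (n + 1)) R),
      (∀ M, eval₂ ((algebraMap k (S M).L).comp σ) (S M).x f = 0) →
      eval₂ ((algebraMap 𝕂 (Om Ω)).comp (ρ.comp σ)) (fun j => Om.mk fun M => φ M ((S M).x j)) f
        = 0 := by
    intro R _ σ f hf
    rw [← RingHom.comp_assoc, hρ, RingHom.comp_assoc]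
    refine eq_mk ((algebraMap k Ω).comp σ) (fun M j => φ M ((S M).x j)) f fun M => ?_
    have h1 := hom_eval₂ f ((algebraMap k (S M).L).comp σ) (φ M : (S M).L →+* Ω) (S M).x
    rw [hf, map_zero, ← RingHom.comp_assoc] at h1
    have h2 : (φ M : (S M).L →+* Ω).comp (algebraMap k (S M).L) = algebraMap k Ω := by
      ext r
      exact (φ M).commutes r
    rw [h2] at h1
    exact h1.symm
  have hmem := const_pt (Ω := Om Ω) (x := fun j => Om.mk fun M => φ M ((S M).x j)) hNL ρ
    (fun f hf => hcom (algebraMap k0 k) f fun M => by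
      have h2 := hSV M f hf
      rw [aeval_def, eval₂_map] at h2
      exact h2)
    (fun a => hcom (RingHom.id k) (F a) fun M => hSF M a) hu hu' (t := t)
    (fun j => by rw [← hpt]; exact hxu j)
  have hint : ∀ j, IsIntegral (LH S φ) (Om.mk fun M => φ M ((S M).x j)) := by
    intro j
    obtain ⟨b, hb⟩ := hmem j
    rw [← hb]
    exact h𝕂i _ b.2
  choose N w C hC heq using fun j => alg_LH (hint j)
  obtain ⟨B, hB⟩ : ∃ B : ℕ, B = ∑ j, N j * (s * C j) := ⟨_, rfl⟩
  have hev : ∀ᶠ M in (hyperfilter ℕ : Filter ℕ), ∑ j, hgt k ((S M).x j) ≤ B * (S M).h := by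
    filter_upwards [eventually_all.2 heq] with M hM
    rw [hB, Nat.cast_sum, Finset.sum_mul]
    refine Finset.sum_le_sum fun j _ => ?_
    have h2 : (S M).x j ^ N j + ∑ i ∈ Finset.range (N j),
        algebraMap (S M).K (S M).L (w j i M) * (S M).x j ^ i = 0 := by
      apply (φ M).injective
      change φ M _ = φ M 0
      rw [map_zero, map_add, map_pow, map_sum, ← hM j]
      congr 1
      exact Finset.sum_congr rfl fun i _ => by rw [map_mul, map_pow]
    refine (root_hgt (κ := k) h2).trans ?_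
    refine (Finset.sum_le_sum (g := fun _ => (s : ℤ) * (C j * (S M).h)) fun i hi => ?_).trans
      (le_of_eq ?_)
    · rw [hgt_algebraMap, (S M).fr]
      exact mul_le_mul_of_nonneg_left (hC j i hi M) (by positivity)
    · rw [Finset.sum_const, Finset.card_range, nsmul_eq_mul]
      push_cast
      ring
  have hcof : ∀ᶠ M : ℕ in (hyperfilter ℕ : Filter ℕ), B ≤ M := by
    have h1 : ∀ᶠ M : ℕ in (cofinite : Filter ℕ), B ≤ M := by
      rw [Nat.cofinite_eq_atTop]
      exact eventually_ge_atTop B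
    exact h1.filter_mono hyperfilter_le_cofinite
  obtain ⟨M, hM1, hM2⟩ := (hev.and hcof).exists
  have h3 := hSB M
  have h4 : (B : ℤ) * (S M).h ≤ M * (S M).h :=
    mul_le_mul_of_nonneg_right (by exact_mod_cast hM2) (S M).h0
  linarith

end Pool.Agent.N95.GP
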